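import Pool.Agent.W540.BE.EC
import Pool.Agent.W353.AT.Defs

/-!
# The symmetric powers of an elliptic curve over a number field, twisted by Artin representations:
definitions

`E` is an elliptic curve over a number field `F`, given by an integral Weierstrass equation `W` with
discriminant `≠ 0` (every elliptic curve over `F` has one), and `χ` an Artin representation of `F`.
-/

set_option autoImplicit false

namespace Pool.Agent.H2N.SY

open NumberField IsDedekindDomain Filter Topology Polynomial
open Pool.Agent.W353.EH (edgePoint)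
open Pool.Agent.W353.AT (IsFrobeniusElement)
open Pool.Agent.W540.BE (trv)

/-- The polynomials `B v` are the Euler factors of `L(Sym^k E ⊗ χ, s)`: for almost all primes `v`,
`B_v(z) = ∏_{j ≤ k} det(1 - a^{k - j} b^j z χ(σ⁻¹))` for a Frobenius element `σ`, where `a` and `b` are the
two numbers with the sum `a_v = q_v + 1 - #E(k_v)` and the product `q_v`; at the other primes `B v` is an
arbitrary polynomial, and no factor `1 / B_v(q_v^{-s})` has a pole at the point `s = k / 2 + 1 + i τ` of
the edge line. -/
def IsSym {F : Type} [Field F] [NumberField F] (W : WeierstrassCurve (𝓞 F)) (k : ℕ) {n : ℕ}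
    (χ : Representation ℂ Gal(AlgebraicClosure F/F) (Fin n → ℂ)) (τ : ℝ)
    (B : HeightOneSpectrum (𝓞 F) → ℂ[X]) : Prop :=
  (∀ᶠ v in cofinite, ∃ a b : ℂ, a + b = (trv W v : ℂ) ∧ a * b = (Ideal.absNorm v.asIdeal : ℂ) ∧
    ∀ σ, IsFrobeniusElement v σ → ∀ z : ℂ, (B v).eval z =
      ∏ j : Fin (k + 1), LinearMap.det (1 - (a ^ (k - (j : ℕ)) * b ^ (j : ℕ) * z) • χ σ⁻¹)) ∧
  ∀ v, (B v).eval ((Ideal.absNorm v.asIdeal : ℂ) ^ (-edgePoint k τ)) ≠ 0

end Pool.Agent.H2N.SY
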