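import Pool.Agent.H2N.TL.Core
import Pool.Agent.H2N.SY.Defs

/-!
Symmetric powers of an elliptic curve over a number field on the whole edge line.
-/

set_option autoImplicit false

namespace Pool.Agent.H2N.SY

open Complex Filter Topology ComplexConjugate NumberField IsDedekindDomain Asymptotics
  Pool.Agent.W401.Cheb Pool.Agent.W540.BE Pool.Agent.W353.L1 Polynomial
open Pool.Agent.H341R2 (lam lam_tendsto)
open Pool.Agent.W353.EF (LFun)
open Pool.Agent.W353.EH (edgePoint size HasOrder)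
open Pool.Agent.W353.AT (IsArtin exists_common)
open Pool.Agent.Y139.SM (EP_cofinite bessel_two)
open Pool.Agent.H2N.TL (heightFactor hf_pos hf_le mean_RR size_lim order_le artin_one RR_neg)

/-! ### The sums of the Frobenius eigenvalues -/

theorem sym_rec (a b : ℂ) (k : ℕ) :
    ∑ j : Fin (k + 2), a ^ (k + 1 - (j : ℕ)) * b ^ (j : ℕ) =
      a * (∑ j : Fin (k + 1), a ^ (k - (j : ℕ)) * b ^ (j : ℕ)) + b ^ (k + 1) := by
  rw [Fin.sum_univ_castSucc, Finset.mul_sum]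
  simp only [Fin.val_castSucc, Fin.val_last, Nat.sub_self, pow_zero, one_mul]
  congr 1
  refine Finset.sum_congr rfl fun j _ => ?_
  have hj := j.2
  have : k + 1 - (j : ℕ) = (k - (j : ℕ)) + 1 := by omega
  rw [this, pow_succ]
  ring

theorem sym_rec2 (a b : ℂ) (k : ℕ) :
    ∑ j : Fin (k + 3), a ^ (k + 2 - (j : ℕ)) * b ^ (j : ℕ) =
      (a + b) * (∑ j : Fin (k + 2), a ^ (k + 1 - (j : ℕ)) * b ^ (j : ℕ)) -
        a * b * ∑ j : Fin (k + 1), a ^ (k - (j : ℕ)) * b ^ (j : ℕ) := by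
  rw [sym_rec a b (k + 1), sym_rec a b k]
  ring

theorem sym_sum {a b : ℂ} {r x : ℝ} (h1 : a + b = ((2 * r * x : ℝ) : ℂ))
    (h2 : a * b = ((r ^ 2 : ℝ) : ℂ)) (k : ℕ) :
    ∑ j : Fin (k + 1), a ^ (k - (j : ℕ)) * b ^ (j : ℕ) =
      ((r ^ k * (Chebyshev.U ℝ (k : ℤ)).eval x : ℝ) : ℂ) := by
  induction k using Nat.strong_induction_on with
  | _ k ih =>
    match k with
    | 0 => simp
    | 1 =>
      rw [Fin.sum_univ_two]
      simp only [Fin.val_zero, Fin.val_one, Nat.sub_self, pow_zero, mul_one, one_mul, pow_one,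
        Nat.sub_zero]
      rw [h1]
      norm_num [Chebyshev.U_one]
      ring
    | k + 2 =>
      rw [sym_rec2, ih (k + 1) (by omega), ih k (by omega), h1, h2]
      have e1 : ((k + 2 : ℕ) : ℤ) = (k : ℤ) + 2 := by push_cast; ring
      have e2 : ((k + 1 : ℕ) : ℤ) = (k : ℤ) + 1 := by push_cast; ring
      rw [e1, e2, Chebyshev.U_add_two]
      simp only [eval_sub, eval_mul, eval_X, eval_ofNat]
      push_cast
      ring

theorem norm_root {a b : ℂ} {t q : ℝ} (hq : 0 < q) (ht : |t| ≤ 2 * Real.sqrt q)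
    (h1 : a + b = (t : ℂ)) (h2 : a * b = (q : ℂ)) : ‖a‖ = Real.sqrt q ∧ ‖b‖ = Real.sqrt q := by
  obtain ⟨α, h3, h4, h5⟩ := exists_roots hq ht
  have h6 : ∀ c : ℂ, c * c - (t : ℂ) * c + q = 0 → ‖c‖ = Real.sqrt q := by
    intro c hc
    have h7 : (c - α 0) * (c - α 1) = 0 := by
      have : (c - α 0) * (c - α 1) = c * c - (α 0 + α 1) * c + α 0 * α 1 := by ring
      rw [this, h4, h5]
      exact hc
    rw [Real.sqrt_eq_rpow]
    rcases mul_eq_zero.1 h7 with h | h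
    · rw [sub_eq_zero.1 h]; exact h3 0
    · rw [sub_eq_zero.1 h]; exact h3 1
  refine ⟨h6 a ?_, h6 b ?_⟩
  · rw [← h1, ← h2]; ring
  · rw [← h1, ← h2]; ring

section
variable {K : Type} [Field K] [NumberField K]

/-- the normalised trace `a_v / √q_v` -/
noncomputable def tE (W : WeierstrassCurve (𝓞 K)) (v : HeightOneSpectrum (𝓞 K)) : ℝ :=
  open Classical in
  if |(trv W v : ℝ)| ≤ 2 * Real.sqrt (nm K v) then (trv W v : ℝ) / Real.sqrt (nm K v) else 0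

theorem abs_tE (W : WeierstrassCurve (𝓞 K)) (v : HeightOneSpectrum (𝓞 K)) : |tE W v| ≤ 2 := by
  unfold tE
  split_ifs with h
  · have h1 : (0 : ℝ) < nm K v := by exact_mod_cast nm_pos v
    have h2 : 0 < Real.sqrt (nm K v) := Real.sqrt_pos.2 h1
    rw [abs_div, abs_of_pos h2, div_le_iff₀ h2]
    exact h
  · simp

theorem good_v {W : WeierstrassCurve (𝓞 K)} (hΔ : W.Δ ≠ 0) : ∀ᶠ v in cofinite,
    |(trv W v : ℝ)| ≤ 2 * Real.sqrt (nm K v) := by
  have h6 : (6 : 𝓞 K) ≠ 0 := by norm_num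
  have hgood : ∀ᶠ v : HeightOneSpectrum (𝓞 K) in cofinite,
      (6 : 𝓞 K) ∉ v.asIdeal ∧ W.Δ ∉ v.asIdeal := by
    rw [Filter.eventually_cofinite]
    refine ((finite_mem_prime h6).union (finite_mem_prime hΔ)).subset fun v hv => ?_
    rw [Set.mem_ofPred_eq, not_and_or, not_not, not_not] at hv
    exact hv
  exact hgood.mono fun v hv => hasse_v W v hv.1 hv.2

/-- a bound for `U_k` on `[-1, 1]` -/
noncomputable def ub (k : ℕ) : ℝ :=
  (IsCompact.exists_bound_of_continuousOn (isCompact_Icc (a := (-1 : ℝ)) (b := 1))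
    (Polynomial.continuous (Chebyshev.U ℝ (k : ℤ))).continuousOn).choose

theorem ub_spec (k : ℕ) {t : ℝ} (ht : |t| ≤ 2) : |(Chebyshev.U ℝ (k : ℤ)).eval (t / 2)| ≤ ub k := by
  have h := (IsCompact.exists_bound_of_continuousOn (isCompact_Icc (a := (-1 : ℝ)) (b := 1))
    (Polynomial.continuous (Chebyshev.U ℝ (k : ℤ))).continuousOn).choose_spec
  have h1 := abs_le.1 ht
  have h2 := h (t / 2) ⟨by linarith [h1.1], by linarith [h1.2]⟩
  rwa [Real.norm_eq_abs] at h2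

theorem ub_nonneg (k : ℕ) : 0 ≤ ub k :=
  (abs_nonneg _).trans (ub_spec k (t := 0) (by simp))

theorem edge_sym (k : ℕ) (τ : ℝ) : ((((k : ℝ) / 2 : ℝ)) : ℂ) + 1 + (τ : ℂ) * I = edgePoint k τ := by
  unfold edgePoint
  push_cast
  ring

/-- **The sizes of the symmetric powers.** -/
theorem sym_size {W : WeierstrassCurve (𝓞 K)} (hΔ : W.Δ ≠ 0) {σ : HeightOneSpectrum (𝓞 K) → GK K}
    (hσ : ∀ v, IsFrob v (σ v)) (k : ℕ) {n : ℕ} (χ : Representation ℂ (GK K) (Fin n → ℂ))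
    (hχ : IsArtin χ) (τ : ℝ) (B : HeightOneSpectrum (𝓞 K) → ℂ[X]) (hB : IsSym W k χ τ B) :
    (∀ᶠ ε : ℝ in 𝓝[>] 0, LFun B (edgePoint k τ + ε) ≠ 0) ∧
    Tendsto (fun ε : ℝ => (EP (nm K) ε fun v =>
      (Chebyshev.U ℝ (k : ℤ)).eval (tE W v / 2) * RR χ τ σ v) / lam ε - size k τ B ε)
      (𝓝[>] 0) (𝓝 0) := by
  classical
  obtain ⟨U, hUn, hU, hx1⟩ := exists_common (κ := Unit) (n := fun _ => n)
    (fun _ => χ) fun _ => hχ
  have hx1 : ∀ u ∈ U, χ u = 1 := hx1 ()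
  have hfin : Finite (GK K ⧸ U) := Subgroup.quotient_finite_of_isOpen U hU
  have hex : ∀ v : HeightOneSpectrum (𝓞 K), ∃ p : ℂ × ℂ, (∃ a b : ℂ, a + b = (trv W v : ℂ) ∧
      a * b = ((nm K v : ℕ) : ℂ) ∧ ∀ σ, IsFrob v σ → ∀ z : ℂ, (B v).eval z =
        ∏ j : Fin (k + 1), LinearMap.det (1 - (a ^ (k - (j : ℕ)) * b ^ (j : ℕ) * z) • χ σ⁻¹)) →
      (p.1 + p.2 = (trv W v : ℂ) ∧ p.1 * p.2 = ((nm K v : ℕ) : ℂ) ∧
        ∀ σ, IsFrob v σ → ∀ z : ℂ, (B v).eval z =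
        ∏ j : Fin (k + 1), LinearMap.det
          (1 - (p.1 ^ (k - (j : ℕ)) * p.2 ^ (j : ℕ) * z) • χ σ⁻¹)) := by
    intro v
    by_cases h : ∃ a b : ℂ, a + b = (trv W v : ℂ) ∧
      a * b = ((nm K v : ℕ) : ℂ) ∧ ∀ σ, IsFrob v σ → ∀ z : ℂ, (B v).eval z =
        ∏ j : Fin (k + 1), LinearMap.det (1 - (a ^ (k - (j : ℕ)) * b ^ (j : ℕ) * z) • χ σ⁻¹)
    · obtain ⟨a, b, h1⟩ := h
      exact ⟨(a, b), fun _ => h1⟩
    · exact ⟨0, fun h' => absurd h' h⟩
  choose p hp using hex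
  have hb : ∀ᶠ v in cofinite, |(trv W v : ℝ)| ≤ 2 * Real.sqrt (nm K v) ∧
      ((p v).1 + (p v).2 = (trv W v : ℂ) ∧ (p v).1 * (p v).2 = ((nm K v : ℕ) : ℂ) ∧
        ∀ σ, IsFrob v σ → ∀ z : ℂ, (B v).eval z =
        ∏ j : Fin (k + 1), LinearMap.det
          (1 - ((p v).1 ^ (k - (j : ℕ)) * (p v).2 ^ (j : ℕ) * z) • χ σ⁻¹)) := by
    filter_upwards [good_v hΔ, hB.1] with v h1 h2
    exact ⟨h1, hp v h2⟩
  set β : HeightOneSpectrum (𝓞 K) → Fin (k + 1) → ℂ := fun v j =>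
    (p v).1 ^ (k - (j : ℕ)) * (p v).2 ^ (j : ℕ) with hβ
  have hq0 : ∀ v : HeightOneSpectrum (𝓞 K), (0 : ℝ) < (nm K v : ℝ) := fun v => by
    exact_mod_cast nm_pos v
  have hnorm : ∀ᶠ v in cofinite, ∀ j, ‖β v j‖ = (nm K v : ℝ) ^ ((k : ℝ) / 2) := by
    refine hb.mono fun v hv j => ?_
    obtain ⟨h1, h2⟩ := norm_root (hq0 v) hv.1 (by rw [hv.2.1]; simp) (by rw [hv.2.2.1]; simp)
    rw [hβ]
    simp only
    have hj := j.2
    have h3 : (k - (j : ℕ)) + (j : ℕ) = k := by omega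
    rw [norm_mul, norm_pow, norm_pow, h1, h2, ← pow_add, h3, Real.sqrt_eq_rpow,
      ← Real.rpow_natCast, ← Real.rpow_mul (hq0 v).le]
    congr 1
    ring
  have hsum : ∀ᶠ v in cofinite, ∑ j, β v j = (((Real.sqrt (nm K v)) ^ k *
      (Chebyshev.U ℝ (k : ℤ)).eval (tE W v / 2) : ℝ) : ℂ) := by
    refine hb.mono fun v hv => ?_
    have hs : 0 < Real.sqrt (nm K v) := Real.sqrt_pos.2 (hq0 v)
    refine sym_sum ?_ ?_ k
    · rw [hv.2.1]
      unfold tE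
      rw [if_pos hv.1]
      have : 2 * Real.sqrt (nm K v) * ((trv W v : ℝ) / Real.sqrt (nm K v) / 2) = (trv W v : ℝ) := by
        field_simp
      rw [this]
      simp
    · rw [hv.2.2.1, Real.sq_sqrt (hq0 v).le]
      simp
  have hreal : ∀ᶠ v in cofinite, (∑ j, β v j).im = 0 := by
    refine hsum.mono fun v hv => ?_
    rw [hv, Complex.ofReal_im]
  have hsz := size_corr ((k : ℝ) / 2) β hnorm hreal U χ hx1 τ B
    (hb.mono fun v hv g hg z => hv.2.2.2 g hg z)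
    (by
      rw [edge_sym]
      exact hB.2) (LFun B) (fun s _ => rfl) σ hσ
  simp only [edge_sym] at hsz
  refine ⟨hsz.1, ?_⟩
  have htr : ∀ᶠ v in cofinite, tr ((k : ℝ) / 2) β v =
      (Chebyshev.U ℝ (k : ℤ)).eval (tE W v / 2) := by
    filter_upwards [hnorm, hsum] with v h1 h2
    unfold tr
    rw [if_pos ⟨h1, by rw [h2, Complex.ofReal_im]⟩, h2, Complex.ofReal_re]
    have h3 : (Real.sqrt (nm K v)) ^ k = (nm K v : ℝ) ^ ((k : ℝ) / 2) := by
      rw [Real.sqrt_eq_rpow, ← Real.rpow_natCast, ← Real.rpow_mul (hq0 v).le]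
      congr 1
      ring
    rw [h3, mul_comm, ← mul_assoc, ← Real.rpow_add (hq0 v), neg_add_cancel, Real.rpow_zero,
      one_mul]
  have hcong := EP_cofinite (K := K)
    (φ := fun v => (Chebyshev.U ℝ (k : ℤ)).eval (tE W v / 2) * RR χ τ σ v)
    (ψ := fun v => tr ((k : ℝ) / 2) β v * RR χ τ σ v)
    (B := ub k * n) (C := ((k + 1 : ℕ) : ℝ) * n)
    (fun v => by
      rw [abs_mul]
      exact mul_le_mul (ub_spec k (abs_tE W v))
        (abs_RR_le U χ hx1 _ _ _) (abs_nonneg _) (ub_nonneg k))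
    (fun v => by
      rw [abs_mul]
      exact mul_le_mul (abs_tr_le _ _ _) (abs_RR_le U χ hx1 _ _ _) (abs_nonneg _) (by positivity))
    (htr.mono fun v hv => by rw [hv])
  have h8 := hcong.add hsz.2
  rw [add_zero] at h8
  refine h8.congr fun ε => ?_
  have e : (fun v => ((tr ((k : ℝ) / 2) β v : ℂ) *
      (χ.character (σ v)⁻¹ * zz τ v)).re) =
      fun v => tr ((k : ℝ) / 2) β v * RR χ τ σ v := by
    funext v
    rw [Complex.re_ofReal_mul]
    rfl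
  rw [e]
  unfold size
  ring

end

end Pool.Agent.H2N.SY
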