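import Pool.Agent.H2N.SY.Core

/-!
Symmetric powers of an elliptic curve over a number field on the whole edge line: the inequalities.
-/

set_option autoImplicit false

namespace Pool.Agent.H2N.SY

open Complex Filter Topology ComplexConjugate NumberField IsDedekindDomain Asymptotics
  Pool.Agent.W401.Cheb Pool.Agent.W540.BE Pool.Agent.W353.L1 Polynomial
open Pool.Agent.H341R2 (lam lam_tendsto)
open Pool.Agent.W353.EF (LFun)
open Pool.Agent.W353.EH (edgePoint size HasOrder)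
open Pool.Agent.W353.AT (IsArtin exists_common)
open Pool.Agent.Y139.SM (EP_cofinite bessel_two)
open Pool.Agent.H2N.TL (heightFactor hf_pos hf_le mean_RR size_lim order_le artin_one RR_neg)

section
variable {K : Type} [Field K] [NumberField K]

/-- a bound for a combination of functions gives a bound for the sizes -/
theorem coreG {κ : Type*} {T : HeightOneSpectrum (𝓞 K) → ℝ} {s : ℝ}
    (hT : ∀ v, |T v| ≤ s) (σ : HeightOneSpectrum (𝓞 K) → GK K) (hσ : ∀ v, IsFrob v (σ v)) {n : ℕ}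
    (χ : Representation ℂ (GK K) (Fin n → ℂ)) (hχ : IsArtin χ) (hirr : χ.IsIrreducible) (τ : ℝ)
    (S : Finset κ) (g : κ → ℝ → ℝ) (G : κ → ℝ) (hG : ∀ j t, |t| ≤ s → |g j t| ≤ G j) (c : κ → ℝ)
    (x : κ → ℝ → ℝ) (hx : ∀ j ∈ S, Tendsto (fun ε : ℝ =>
      (EP (nm K) ε fun v => g j (T v) * RR χ τ σ v) / lam ε - x j ε) (𝓝[>] 0) (𝓝 0))
    {b : ℝ} (hb0 : 0 ≤ b) (hb : ∀ t : ℝ, |t| ≤ s → |∑ j ∈ S, c j * g j t| ≤ b)
    {η : ℝ} (hη : 0 < η) :
    ∀ᶠ ε : ℝ in 𝓝[>] 0, |∑ j ∈ S, c j * x j ε| ≤ b * heightFactor τ + η := by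
  classical
  obtain ⟨U, hUn, hU, hx1⟩ := exists_common (κ := Unit) (n := fun _ => n)
    (fun _ => χ) fun _ => hχ
  have hx1 : ∀ u ∈ U, χ u = 1 := hx1 ()
  have hfin : Finite (GK K ⧸ U) := Subgroup.quotient_finite_of_isOpen U hU
  have hpt : ∀ v, |∑ j ∈ S, c j * (g j (T v) * RR χ τ σ v)| ≤ b * |RR χ τ σ v| := by
    intro v
    have h1 : ∑ j ∈ S, c j * (g j (T v) * RR χ τ σ v) =
        (∑ j ∈ S, c j * g j (T v)) * RR χ τ σ v := by
      rw [Finset.sum_mul]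
      refine Finset.sum_congr rfl fun r _ => ?_
      ring
    rw [h1, abs_mul]
    exact mul_le_mul_of_nonneg_right (hb (T v) (hT v)) (abs_nonneg _)
  have hbd : ∀ r v, |g r (T v) * RR χ τ σ v| ≤ G r * n := by
    intro r v
    rw [abs_mul]
    exact mul_le_mul (hG r _ (hT v)) (abs_RR_le U χ hx1 _ _ _) (abs_nonneg _)
      ((abs_nonneg _).trans (hG r _ (hT v)))
  have h1 : Tendsto (fun ε : ℝ => ∑ j ∈ S, c j * ((EP (nm K) ε fun v =>
      g j (T v) * RR χ τ σ v) / lam ε - x j ε)) (𝓝[>] 0) (𝓝 0) := by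
    have h2 := tendsto_finsetSum (f := fun j ε => c j * ((EP (nm K) ε fun v =>
      g j (T v) * RR χ τ σ v) / lam ε - x j ε)) (a := fun j => c j * 0) S
      fun r hr => (hx r hr).const_mul (c r)
    simpa using h2
  filter_upwards [(Metric.tendsto_nhds.1 h1) (η / 2) (by positivity),
    mean_RR χ hχ hirr σ hσ τ (η := η / (2 * (b + 1))) (by positivity),
    lam_tendsto.eventually_gt_atTop 0,
    self_mem_nhdsWithin] with ε h2 hA' h3 h4
  have hε : (0 : ℝ) < ε := h4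
  rw [Real.dist_eq, sub_zero] at h2
  have h5 : |EP (nm K) ε fun v => ∑ j ∈ S, c j * (g j (T v) * RR χ τ σ v)| ≤
      b * EP (nm K) ε fun v => |RR χ τ σ v| := by
    rw [← EP_const_mul]
    refine EP_abs_le (B := b * n) (fun v => ?_) (fun v => hpt v) hε
    rw [abs_of_nonneg (by positivity)]
    exact mul_le_mul_of_nonneg_left (abs_RR_le U χ hx1 _ _ _) hb0
  have h6 : (EP (nm K) ε fun v => ∑ j ∈ S, c j * (g j (T v) * RR χ τ σ v)) =
      ∑ j ∈ S, c j * EP (nm K) ε fun v => g j (T v) * RR χ τ σ v := by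
    rw [EP_sum normSys hε S (fun r v => c r * (g r (T v) * RR χ τ σ v))
      (fun r => |c r| * (G r * n)) (by
        intro k _ v
        rw [abs_mul]
        exact mul_le_mul_of_nonneg_left (hbd _ v) (abs_nonneg _))]
    exact Finset.sum_congr rfl fun k _ => EP_const_mul _ _
  have h7 : ∑ j ∈ S, c j * ((EP (nm K) ε fun v => g j (T v) * RR χ τ σ v) / lam ε -
      x j ε) = (∑ j ∈ S, c j * EP (nm K) ε fun v => g j (T v) * RR χ τ σ v) / lam ε -
        ∑ j ∈ S, c j * x j ε := by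
    rw [Finset.sum_div, ← Finset.sum_sub_distrib]
    refine Finset.sum_congr rfl fun k _ => ?_
    ring
  rw [h7, ← h6] at h2
  have h8 : |(EP (nm K) ε fun v => ∑ j ∈ S, c j * (g j (T v) * RR χ τ σ v)) / lam ε| ≤
      b * ((EP (nm K) ε fun v => |RR χ τ σ v|) / lam ε) := by
    rw [abs_div, abs_of_pos h3, ← mul_div_assoc]
    exact div_le_div_of_nonneg_right h5 h3.le
  have h9 : b * ((EP (nm K) ε fun v => |RR χ τ σ v|) / lam ε) ≤ b * heightFactor τ + η / 2 := by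
    have h10 := mul_le_mul_of_nonneg_left hA' hb0
    have h11 : b * (η / (2 * (b + 1))) ≤ η / 2 := by
      rw [mul_div_assoc', div_le_div_iff₀ (by positivity) (by positivity)]
      nlinarith
    linarith
  set P := (EP (nm K) ε fun v => ∑ j ∈ S, c j * (g j (T v) * RR χ τ σ v)) / lam ε
  have h11 := abs_sub_abs_le_abs_sub (∑ j ∈ S, c j * x j ε) P
  rw [abs_sub_comm] at h11
  linarith

/-- the mean value of a character with a height `τ ≠ 0` is zero -/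
theorem mean_zero {n : ℕ} (χ : Representation ℂ (GK K) (Fin n → ℂ)) (hχ : IsArtin χ)
    (σ : HeightOneSpectrum (𝓞 K) → GK K) (hσ : ∀ v, IsFrob v (σ v)) {τ : ℝ} (hτ : τ ≠ 0) :
    Tendsto (fun ε : ℝ => (EP (nm K) ε fun v => RR χ τ σ v) / lam ε) (𝓝[>] 0) (𝓝 0) := by
  classical
  obtain ⟨U, hUn, hU, hx1⟩ := exists_common (κ := Unit) (n := fun _ => n)
    (fun _ => χ) fun _ => hχ
  have hfin : Finite (GK K ⧸ U) := Subgroup.quotient_finite_of_isOpen U hU
  exact ((chF U (fun _ : Unit => χ) hx1 ()).has_ne hU σ hσ hτ).2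

/-- **All inequalities for the symmetric powers.** -/
theorem sym_ineq {W : WeierstrassCurve (𝓞 K)} (hΔ : W.Δ ≠ 0) {n : ℕ}
    (χ : Representation ℂ (GK K) (Fin n → ℂ)) (hχ : IsArtin χ) (hirr : χ.IsIrreducible) (τ : ℝ)
    (S : Finset ℕ) (c : ℕ → ℝ) (c₀ b : ℝ) (hc₀ : τ = 0 → c₀ = 0)
    (hb : ∀ t : ℝ, |t| ≤ 2 → |c₀ + ∑ k ∈ S, c k * (Chebyshev.U ℝ (k : ℤ)).eval (t / 2)| ≤ b)
    (B : ℕ → HeightOneSpectrum (𝓞 K) → ℂ[X]) (hB : ∀ k ∈ S, IsSym W k χ τ (B k)) :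
    (∀ k ∈ S, ∀ᶠ ε : ℝ in 𝓝[>] 0, LFun (B k) (edgePoint k τ + ε) ≠ 0) ∧
    (∀ η : ℝ, 0 < η → ∀ᶠ ε : ℝ in 𝓝[>] 0,
      |∑ k ∈ S, c k * size k τ (B k) ε| ≤ b * heightFactor τ + η) ∧
    ∀ m : ℕ → ℤ, (∀ k ∈ S, HasOrder k τ (B k) (m k)) →
      |∑ k ∈ S, c k * m k| ≤ b * heightFactor τ := by
  classical
  choose σ hσ using exists_isFrob (F := K)
  have hnz : ∀ k ∈ S, ∀ᶠ ε : ℝ in 𝓝[>] 0, LFun (B k) (edgePoint k τ + ε) ≠ 0 := fun k hk =>
    (sym_size hΔ hσ k χ hχ τ (B k) (hB k hk)).1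
  have hb0 : 0 ≤ b := (abs_nonneg _).trans (hb 0 (by simp))
  have hmain : ∀ η : ℝ, 0 < η → ∀ᶠ ε : ℝ in 𝓝[>] 0,
      |∑ k ∈ S, c k * size k τ (B k) ε| ≤ b * heightFactor τ + η := by
    intro η hη
    -- the index `none` stands for the constant
    set S' : Finset (Option ℕ) := Finset.insertNone S with hS'
    set g : Option ℕ → ℝ → ℝ := fun o t => match o with
      | none => if τ = 0 then 0 else 1
      | some k => (Chebyshev.U ℝ (k : ℤ)).eval (t / 2) with hg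
    set c' : Option ℕ → ℝ := fun o => match o with
      | none => c₀
      | some k => c k with hc'
    set x : Option ℕ → ℝ → ℝ := fun o ε => match o with
      | none => 0
      | some k => size k τ (B k) ε with hx
    have h := coreG (T := tE W) (abs_tE W) σ hσ χ hχ hirr τ S' g
      (fun o => match o with
        | none => 1
        | some k => ub k)
      (fun o t ht => by
        match o with
        | none =>
          rw [hg]
          simp only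
          split_ifs <;> simp
        | some k => exact ub_spec k ht) c' x
      (fun o ho => by
        match o with
        | none =>
          rw [hg, hx]
          simp only [sub_zero]
          by_cases hτ : τ = 0
          · simp only [if_pos hτ, zero_mul]
            have : ∀ ε : ℝ, (EP (nm K) ε fun _ => (0 : ℝ)) = 0 := fun ε => by
              unfold EP
              simp
            simp only [this, zero_div]
            exact tendsto_const_nhds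
          · simp only [if_neg hτ, one_mul]
            exact mean_zero χ hχ σ hσ hτ
        | some k =>
          have hk : k ∈ S := by simpa [hS'] using ho
          exact (sym_size hΔ hσ k χ hχ τ (B k) (hB k hk)).2) hb0
      (fun t ht => by
        rw [hS', Finset.sum_insertNone]
        rw [hg, hc']
        simp only
        by_cases hτ : τ = 0
        · rw [hc₀ hτ, zero_mul]
          have := hb t ht
          rwa [hc₀ hτ] at this
        · rw [if_neg hτ, mul_one]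
          exact hb t ht) hη
    refine h.mono fun ε hε => ?_
    rw [hS', Finset.sum_insertNone] at hε
    simpa [hc', hx] using hε
  refine ⟨hnz, hmain, fun m hm => ?_⟩
  exact order_le (x := fun k => size k τ (B k)) (fun k hk => size_lim (hnz k hk) (hm k hk)) hmain

/-! ### The first and the third symmetric power -/

theorem U_one_val (t : ℝ) : (Chebyshev.U ℝ ((1 : ℕ) : ℤ)).eval (t / 2) = t := by
  rw [Nat.cast_one, Chebyshev.U_one]
  simp only [eval_mul, eval_ofNat, eval_X]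
  ring

theorem U_two_val (t : ℝ) : (Chebyshev.U ℝ ((2 : ℕ) : ℤ)).eval (t / 2) = t ^ 2 - 1 := by
  have e : ((2 : ℕ) : ℤ) = 0 + 2 := by norm_num
  rw [e, Chebyshev.U_add_two]
  simp only [zero_add, Chebyshev.U_one, Chebyshev.U_zero, eval_mul, eval_ofNat, eval_X, eval_sub,
    eval_one]
  ring

theorem U_three_val (t : ℝ) : (Chebyshev.U ℝ ((3 : ℕ) : ℤ)).eval (t / 2) = t ^ 3 - 2 * t := by
  have e : ((3 : ℕ) : ℤ) = 1 + 2 := by norm_num
  have e2 : (1 : ℤ) + 1 = 0 + 2 := by norm_num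
  rw [e, Chebyshev.U_add_two, e2, Chebyshev.U_add_two]
  simp only [zero_add, Chebyshev.U_one, Chebyshev.U_zero, eval_mul, eval_ofNat, eval_X, eval_sub,
    eval_one]
  ring

theorem U_four_val (t : ℝ) : (Chebyshev.U ℝ ((4 : ℕ) : ℤ)).eval (t / 2) = t ^ 4 - 3 * t ^ 2 + 1 := by
  have h2 := U_two_val t
  have h3 := U_three_val t
  have e : ((4 : ℕ) : ℤ) = ((2 : ℕ) : ℤ) + 2 := by norm_num
  have e2 : ((2 : ℕ) : ℤ) + 1 = ((3 : ℕ) : ℤ) := by norm_num
  rw [e, Chebyshev.U_add_two, e2]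
  simp only [eval_mul, eval_ofNat, eval_X, eval_sub]
  rw [h2, h3]
  ring

theorem bound_13 {t : ℝ} (ht : |t| ≤ 2) : |4 * t - (t ^ 3 - 2 * t)| ≤ 4 * Real.sqrt 2 := by
  have h0 : 0 ≤ 4 * Real.sqrt 2 := by positivity
  refine abs_le_of_sq_le_sq ?_ h0
  have h1 : (4 * Real.sqrt 2) ^ 2 = 32 := by
    rw [mul_pow, Real.sq_sqrt (by norm_num)]
    norm_num
  rw [h1]
  have h2 : t ^ 2 ≤ 4 := by
    have := pow_le_pow_left₀ (abs_nonneg t) ht 2
    rw [sq_abs] at this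
    linarith
  nlinarith [mul_nonneg (sq_nonneg (2 - t ^ 2)) (by linarith : (0 : ℝ) ≤ 8 - t ^ 2)]

theorem bound_24 {t : ℝ} (ht : |t| ≤ 2) :
    |-(1 / 2) + (3 * (t ^ 2 - 1) - (t ^ 4 - 3 * t ^ 2 + 1))| ≤ 9 / 2 := by
  have h2 : t ^ 2 ≤ 4 := by
    have := pow_le_pow_left₀ (abs_nonneg t) ht 2
    rw [sq_abs] at this
    linarith
  rw [abs_le]
  constructor
  · nlinarith [mul_nonneg (sq_nonneg t) (by linarith : (0 : ℝ) ≤ 6 - t ^ 2)]
  · nlinarith [sq_nonneg (t ^ 2 - 3)]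

theorem hf_ne {τ : ℝ} (hτ : τ ≠ 0) : heightFactor τ = 2 / Real.pi := if_neg hτ

theorem sqrt_two_pi : 4 * Real.sqrt 2 * (2 / Real.pi) < 3.61 := by
  have h1 : Real.sqrt 2 < 1.4143 := by
    rw [Real.sqrt_lt' (by norm_num)]
    norm_num
  have h2 : (3.1415 : ℝ) < Real.pi := Real.pi_gt_d4
  rw [← mul_div_assoc, div_lt_iff₀ Real.pi_pos]
  nlinarith

/-- **The third symmetric power controls the curve** -/
theorem third {W : WeierstrassCurve (𝓞 K)} (hΔ : W.Δ ≠ 0) {n : ℕ}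
    (χ : Representation ℂ (GK K) (Fin n → ℂ)) (hχ : IsArtin χ) (hirr : χ.IsIrreducible) (τ : ℝ)
    {B₁ B₃ : HeightOneSpectrum (𝓞 K) → ℂ[X]} (h₁ : IsSym W 1 χ τ B₁) (h₃ : IsSym W 3 χ τ B₃) :
    (∀ η : ℝ, 0 < η → ∀ᶠ ε : ℝ in 𝓝[>] 0,
      |4 * size 1 τ B₁ ε - size 3 τ B₃ ε| ≤ 4 * Real.sqrt 2 * heightFactor τ + η) ∧
    ∀ m₁ m₃ : ℤ, HasOrder 1 τ B₁ m₁ → HasOrder 3 τ B₃ m₃ →
      |4 * m₁ - m₃| ≤ 5 ∧ (τ ≠ 0 → |4 * m₁ - m₃| ≤ 3) := by
  classical
  set B : ℕ → HeightOneSpectrum (𝓞 K) → ℂ[X] := fun k => if k = 1 then B₁ else B₃ with hBdef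
  set c : ℕ → ℝ := fun k => if k = 1 then 4 else -1 with hc
  have hsum : ∀ f : ℕ → ℝ, ∑ k ∈ ({1, 3} : Finset ℕ), c k * f k = 4 * f 1 - f 3 := by
    intro f
    rw [Finset.sum_pair (by norm_num), hc]
    simp only [if_true]
    rw [if_neg (by norm_num : ¬ (3 = 1))]
    ring
  have hB : ∀ k ∈ ({1, 3} : Finset ℕ), IsSym W k χ τ (B k) := by
    intro k hk
    rw [Finset.mem_insert, Finset.mem_singleton] at hk
    rcases hk with rfl | rfl
    · rw [hBdef]; simpa using h₁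
    · rw [hBdef]; simpa using h₃
  obtain ⟨-, h2, h3⟩ := sym_ineq hΔ χ hχ hirr τ {1, 3} c 0 (4 * Real.sqrt 2) (fun _ => rfl)
    (fun t ht => by
      rw [hsum (fun k => (Chebyshev.U ℝ (k : ℤ)).eval (t / 2)), U_one_val, U_three_val, zero_add]
      exact bound_13 ht) B hB
  refine ⟨fun η hη => (h2 η hη).mono fun ε hε => ?_, fun m₁ m₃ g₁ g₃ => ?_⟩
  · rw [hsum (fun k => size k τ (B k) ε)] at hε
    simpa [hBdef] using hε
  · have h4 := h3 (fun k => if k = 1 then m₁ else m₃) (by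
      intro k hk
      rw [Finset.mem_insert, Finset.mem_singleton] at hk
      rcases hk with rfl | rfl
      · rw [hBdef]; simpa using g₁
      · rw [hBdef]; simpa using g₃)
    rw [hsum (fun k => (((if k = 1 then m₁ else m₃ : ℤ)) : ℝ))] at h4
    simp only [if_true] at h4
    rw [if_neg (by norm_num : ¬ (3 = 1))] at h4
    have h5 : |(4 : ℝ) * m₁ - m₃| = ((|4 * m₁ - m₃| : ℤ) : ℝ) := by push_cast; rfl
    rw [h5] at h4
    have hs : Real.sqrt 2 < 1.4143 := by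
      rw [Real.sqrt_lt' (by norm_num)]
      norm_num
    refine ⟨?_, fun hτ => ?_⟩
    · have h6 : 4 * Real.sqrt 2 * heightFactor τ < 6 := by
        have h7 := hf_le τ
        have h8 := hf_pos τ
        have h9 : 0 ≤ Real.sqrt 2 := Real.sqrt_nonneg _
        nlinarith
      have h7 : ((|4 * m₁ - m₃| : ℤ) : ℝ) < ((6 : ℤ) : ℝ) := by
        push_cast at h4 ⊢
        linarith
      have h8 := Int.cast_lt.1 h7
      omega
    · rw [hf_ne hτ] at h4
      have h7 : ((|4 * m₁ - m₃| : ℤ) : ℝ) < ((4 : ℤ) : ℝ) := by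
        have := sqrt_two_pi
        push_cast at h4 ⊢
        linarith
      have h8 := Int.cast_lt.1 h7
      omega

/-- **The fourth symmetric power controls the second off the real point** -/
theorem fourth {W : WeierstrassCurve (𝓞 K)} (hΔ : W.Δ ≠ 0) {n : ℕ}
    (χ : Representation ℂ (GK K) (Fin n → ℂ)) (hχ : IsArtin χ) (hirr : χ.IsIrreducible) {τ : ℝ}
    (hτ : τ ≠ 0) {B₂ B₄ : HeightOneSpectrum (𝓞 K) → ℂ[X]} (h₂ : IsSym W 2 χ τ B₂)
    (h₄ : IsSym W 4 χ τ B₄) :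
    (∀ η : ℝ, 0 < η → ∀ᶠ ε : ℝ in 𝓝[>] 0,
      |3 * size 2 τ B₂ ε - size 4 τ B₄ ε| ≤ 9 / Real.pi + η) ∧
    ∀ m₂ m₄ : ℤ, HasOrder 2 τ B₂ m₂ → HasOrder 4 τ B₄ m₄ → |3 * m₂ - m₄| ≤ 2 := by
  classical
  set B : ℕ → HeightOneSpectrum (𝓞 K) → ℂ[X] := fun k => if k = 2 then B₂ else B₄ with hBdef
  set c : ℕ → ℝ := fun k => if k = 2 then 3 else -1 with hc
  have hsum : ∀ f : ℕ → ℝ, ∑ k ∈ ({2, 4} : Finset ℕ), c k * f k = 3 * f 2 - f 4 := by
    intro f
    rw [Finset.sum_pair (by norm_num), hc]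
    simp only [if_true]
    rw [if_neg (by norm_num : ¬ (4 = 2))]
    ring
  have hB : ∀ k ∈ ({2, 4} : Finset ℕ), IsSym W k χ τ (B k) := by
    intro k hk
    rw [Finset.mem_insert, Finset.mem_singleton] at hk
    rcases hk with rfl | rfl
    · rw [hBdef]; simpa using h₂
    · rw [hBdef]; simpa using h₄
  have hbb : 9 / 2 * heightFactor τ = 9 / Real.pi := by
    rw [hf_ne hτ]
    ring
  obtain ⟨-, h2, h3⟩ := sym_ineq hΔ χ hχ hirr τ {2, 4} c (-(1 / 2)) (9 / 2) (fun h => absurd h hτ)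
    (fun t ht => by
      rw [hsum (fun k => (Chebyshev.U ℝ (k : ℤ)).eval (t / 2)), U_two_val, U_four_val]
      exact bound_24 ht) B hB
  refine ⟨fun η hη => (h2 η hη).mono fun ε hε => ?_, fun m₂ m₄ g₂ g₄ => ?_⟩
  · rw [hsum (fun k => size k τ (B k) ε), hbb] at hε
    simpa [hBdef] using hε
  · have h4 := h3 (fun k => if k = 2 then m₂ else m₄) (by
      intro k hk
      rw [Finset.mem_insert, Finset.mem_singleton] at hk
      rcases hk with rfl | rfl
      · rw [hBdef]; simpa using g₂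
      · rw [hBdef]; simpa using g₄)
    rw [hsum (fun k => (((if k = 2 then m₂ else m₄ : ℤ)) : ℝ)), hbb] at h4
    simp only [if_true] at h4
    rw [if_neg (by norm_num : ¬ (4 = 2))] at h4
    have h5 : |(3 : ℝ) * m₂ - m₄| = ((|3 * m₂ - m₄| : ℤ) : ℝ) := by push_cast; rfl
    rw [h5] at h4
    have h7 : ((|3 * m₂ - m₄| : ℤ) : ℝ) < ((3 : ℤ) : ℝ) := by
      have h8 : 9 / Real.pi < 3 := by
        rw [div_lt_iff₀ Real.pi_pos]
        linarith [Real.pi_gt_three]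
      push_cast at h4 ⊢
      linarith
    have h8 := Int.cast_lt.1 h7
    omega

/-! ### Positivity at the real point -/

theorem positive {W : WeierstrassCurve (𝓞 K)} (hΔ : W.Δ ≠ 0) (S : Finset ℕ) (c : ℕ → ℝ) (c₀ : ℝ)
    (hb : ∀ t : ℝ, |t| ≤ 2 → 0 ≤ c₀ + ∑ k ∈ S, c k * (Chebyshev.U ℝ (k : ℤ)).eval (t / 2))
    (B : ℕ → HeightOneSpectrum (𝓞 K) → ℂ[X])
    (hB : ∀ k ∈ S, IsSym W k (1 : Representation ℂ (GK K) (Fin 1 → ℂ)) 0 (B k)) :
    (∀ η : ℝ, 0 < η → ∀ᶠ ε : ℝ in 𝓝[>] 0, -η ≤ c₀ + ∑ k ∈ S, c k * size k 0 (B k) ε) ∧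
    ∀ m : ℕ → ℤ, (∀ k ∈ S, HasOrder k 0 (B k) (m k)) → 0 ≤ c₀ - ∑ k ∈ S, c k * m k := by
  classical
  choose σ hσ using exists_isFrob (F := K)
  have hRR : ∀ v, RR (1 : Representation ℂ (GK K) (Fin 1 → ℂ)) 0 σ v = 1 :=
    Pool.Agent.Y139.SM.RR_one σ
  have hsz := fun k hk => sym_size hΔ hσ k _ (artin_one (K := K)) 0 (B k) (hB k hk)
  simp only [hRR, mul_one] at hsz
  have hmain : ∀ η : ℝ, 0 < η → ∀ᶠ ε : ℝ in 𝓝[>] 0,
      -η ≤ c₀ + ∑ k ∈ S, c k * size k 0 (B k) ε := by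
    intro η hη
    have h1 : Tendsto (fun ε : ℝ => c₀ * ((EP (nm K) ε fun _ => 1) / lam ε) +
        ∑ k ∈ S, c k * ((EP (nm K) ε fun v => (Chebyshev.U ℝ (k : ℤ)).eval (tE W v / 2)) / lam ε -
          size k 0 (B k) ε)) (𝓝[>] 0) (𝓝 (c₀ * 1 + ∑ k ∈ S, c k * 0)) :=
      ((EP_one K).const_mul c₀).add
        (tendsto_finsetSum S fun k hk => ((hsz k hk).2).const_mul (c k))
    have h1' := h1
    simp only [mul_zero, Finset.sum_const_zero, add_zero, mul_one] at h1'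
    filter_upwards [(Metric.tendsto_nhds.1 h1') η hη, lam_tendsto.eventually_gt_atTop 0,
      self_mem_nhdsWithin] with ε h2 h3 h4
    have hε : (0 : ℝ) < ε := h4
    rw [Real.dist_eq] at h2
    have h5 : 0 ≤ EP (nm K) ε fun v =>
        c₀ * 1 + ∑ k ∈ S, c k * (Chebyshev.U ℝ (k : ℤ)).eval (tE W v / 2) := by
      unfold EP
      refine tsum_nonneg fun v => mul_nonneg ?_ (wP_nonneg ε v)
      rw [mul_one]
      exact hb _ (abs_tE W v)
    have h6 : (EP (nm K) ε fun v =>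
        c₀ * 1 + ∑ k ∈ S, c k * (Chebyshev.U ℝ (k : ℤ)).eval (tE W v / 2)) =
        c₀ * (EP (nm K) ε fun _ => 1) +
        ∑ k ∈ S, c k * EP (nm K) ε fun v => (Chebyshev.U ℝ (k : ℤ)).eval (tE W v / 2) := by
      rw [EP_add normSys hε (φ := fun _ => c₀ * 1)
        (ψ := fun v => ∑ k ∈ S, c k * (Chebyshev.U ℝ (k : ℤ)).eval (tE W v / 2))
        (B := |c₀|) (B' := ∑ k ∈ S, |c k| * ub k) (fun v => by rw [mul_one])
        (fun v => (Finset.abs_sum_le_sum_abs _ _).trans (Finset.sum_le_sum fun k _ => by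
          rw [abs_mul]
          exact mul_le_mul_of_nonneg_left (ub_spec k (abs_tE W v)) (abs_nonneg _))),
        EP_const_mul]
      congr 1
      rw [EP_sum normSys hε S (fun k v => c k * (Chebyshev.U ℝ (k : ℤ)).eval (tE W v / 2))
        (fun k => |c k| * ub k) (by
          intro k _ v
          rw [abs_mul]
          exact mul_le_mul_of_nonneg_left (ub_spec k (abs_tE W v)) (abs_nonneg _))]
      exact Finset.sum_congr rfl fun k _ => EP_const_mul _ _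
    have h7 : c₀ * ((EP (nm K) ε fun _ => 1) / lam ε) +
        ∑ k ∈ S, c k * ((EP (nm K) ε fun v => (Chebyshev.U ℝ (k : ℤ)).eval (tE W v / 2)) / lam ε -
          size k 0 (B k) ε) = (EP (nm K) ε fun v =>
        c₀ * 1 + ∑ k ∈ S, c k * (Chebyshev.U ℝ (k : ℤ)).eval (tE W v / 2)) / lam ε -
        ∑ k ∈ S, c k * size k 0 (B k) ε := by
      rw [h6, add_div, mul_div_assoc, Finset.sum_div, add_sub_assoc, ← Finset.sum_sub_distrib]
      congr 1
      refine Finset.sum_congr rfl fun k _ => ?_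
      ring
    rw [h7] at h2
    have h8 := div_nonneg h5 h3.le
    have h9 := (abs_lt.1 h2).2
    linarith
  refine ⟨hmain, fun m hm => ?_⟩
  have h1 : Tendsto (fun ε : ℝ => c₀ + ∑ k ∈ S, c k * size k 0 (B k) ε) (𝓝[>] 0)
      (𝓝 (c₀ + ∑ k ∈ S, c k * (-(m k : ℝ)))) :=
    (tendsto_finsetSum S fun k hk =>
      (size_lim (hsz k hk).1 (hm k hk)).const_mul (c k)).const_add c₀
  have h2 : ∑ k ∈ S, c k * (-(m k : ℝ)) = -∑ k ∈ S, c k * m k := by
    rw [← Finset.sum_neg_distrib]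
    exact Finset.sum_congr rfl fun j _ => by ring
  rw [h2] at h1
  refine le_of_forall_pos_le_add fun η hη => ?_
  have := ge_of_tendsto h1 (hmain η hη)
  linarith

/-- at the real point the second and the third symmetric power control the curve -/
theorem real_point {W : WeierstrassCurve (𝓞 K)} (hΔ : W.Δ ≠ 0)
    {B₁ B₂ B₃ : HeightOneSpectrum (𝓞 K) → ℂ[X]}
    (h₁ : IsSym W 1 (1 : Representation ℂ (GK K) (Fin 1 → ℂ)) 0 B₁)
    (h₂ : IsSym W 2 (1 : Representation ℂ (GK K) (Fin 1 → ℂ)) 0 B₂)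
    (h₃ : IsSym W 3 (1 : Representation ℂ (GK K) (Fin 1 → ℂ)) 0 B₃) (m₁ m₂ m₃ : ℤ)
    (g₁ : HasOrder 1 0 B₁ m₁) (g₂ : HasOrder 2 0 B₂ m₂) (g₃ : HasOrder 3 0 B₃ m₃) :
    |17 * m₁ + 4 * m₃| ≤ 14 - 12 * m₂ := by
  classical
  set B : ℕ → HeightOneSpectrum (𝓞 K) → ℂ[X] := fun k =>
    if k = 1 then B₁ else if k = 2 then B₂ else B₃ with hBdef
  set m : ℕ → ℤ := fun k => if k = 1 then m₁ else if k = 2 then m₂ else m₃ with hm
  have hS : ∀ k ∈ ({1, 2, 3} : Finset ℕ), k = 1 ∨ k = 2 ∨ k = 3 := by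
    intro k hk
    simpa using hk
  have hsum : ∀ (e : ℝ) (f : ℕ → ℝ), ∑ k ∈ ({1, 2, 3} : Finset ℕ),
      (if k = 1 then 17 * e else if k = 2 then 12 else 4 * e) * f k =
        17 * e * f 1 + 12 * f 2 + 4 * e * f 3 := by
    intro e f
    rw [Finset.sum_insert (by norm_num), Finset.sum_pair (by norm_num)]
    norm_num
    ring
  have hmain : ∀ e : ℝ, e = 1 ∨ e = -1 → 0 ≤ 14 - (17 * e * m₁ + 12 * m₂ + 4 * e * m₃) := by
    intro e he
    have h := (positive hΔ {1, 2, 3}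
      (fun k => if k = 1 then 17 * e else if k = 2 then 12 else 4 * e) 14 (by
        intro t ht
        rw [hsum e (fun k => (Chebyshev.U ℝ (k : ℤ)).eval (t / 2)), U_one_val, U_two_val,
          U_three_val]
        have h1 := abs_le.1 ht
        rcases he with rfl | rfl
        · have : 14 + (17 * 1 * t + 12 * (t ^ 2 - 1) + 4 * 1 * (t ^ 3 - 2 * t)) =
            (2 + t) * (1 + 2 * t) ^ 2 := by ring
          rw [this]
          exact mul_nonneg (by linarith) (sq_nonneg _)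
        · have : 14 + (17 * -1 * t + 12 * (t ^ 2 - 1) + 4 * -1 * (t ^ 3 - 2 * t)) =
            (2 - t) * (1 - 2 * t) ^ 2 := by ring
          rw [this]
          exact mul_nonneg (by linarith) (sq_nonneg _)) B (by
        intro k hk
        rcases hS k hk with rfl | rfl | rfl
        · rw [hBdef]; simpa using h₁
        · rw [hBdef]; simpa using h₂
        · rw [hBdef]; simpa using h₃)).2 m (by
        intro k hk
        rcases hS k hk with rfl | rfl | rfl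
        · rw [hBdef, hm]; simpa using g₁
        · rw [hBdef, hm]; simpa using g₂
        · rw [hBdef, hm]; simpa using g₃)
    rw [hsum e (fun k => (m k : ℝ))] at h
    simpa [hm] using h
  have h1 := hmain 1 (Or.inl rfl)
  have h2 := hmain (-1) (Or.inr rfl)
  have h3 : (0 : ℤ) ≤ 14 - (17 * m₁ + 12 * m₂ + 4 * m₃) := by
    have : (0 : ℝ) ≤ ((14 - (17 * m₁ + 12 * m₂ + 4 * m₃) : ℤ) : ℝ) := by
      push_cast
      linarith
    exact_mod_cast this
  have h4 : (0 : ℤ) ≤ 14 - (-(17 * m₁) + 12 * m₂ - 4 * m₃) := by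
    have : (0 : ℝ) ≤ ((14 - (-(17 * m₁) + 12 * m₂ - 4 * m₃) : ℤ) : ℝ) := by
      push_cast
      linarith
    exact_mod_cast this
  rw [abs_le]
  constructor <;> linarith

/-! ### Bessel's inequality with the symmetric square -/

theorem bessel_sym {W : WeierstrassCurve (𝓞 K)} (hΔ : W.Δ ≠ 0)
    {B₂ : HeightOneSpectrum (𝓞 K) → ℂ[X]}
    (hB₂ : IsSym W 2 (1 : Representation ℂ (GK K) (Fin 1 → ℂ)) 0 B₂)
    {κ : Type} [Fintype κ] {n : κ → ℕ} (χ : ∀ k, Representation ℂ (GK K) (Fin (n k) → ℂ))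
    (hχ : ∀ k, IsArtin (χ k)) (hirr : ∀ k, (χ k).IsIrreducible) (τ : κ → ℝ)
    (x : κ → ℝ → ℝ) (σ : HeightOneSpectrum (𝓞 K) → GK K) (hσ : ∀ v, IsFrob v (σ v))
    (hx : ∀ k, Tendsto (fun ε : ℝ =>
      (EP (nm K) ε fun v => tE W v * RR (χ k) (τ k) σ v) / lam ε - x k ε) (𝓝[>] 0) (𝓝 0))
    (hne : ∀ k l, k ≠ l → τ k = τ l → IsEmpty ((χ k).Equiv (χ l))) {η : ℝ} (hη : 0 < η) :
    ∀ᶠ ε : ℝ in 𝓝[>] 0, ∑ k, (x k ε) ^ 2 ≤ 1 + size 2 0 B₂ ε + η := by
  classical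
  obtain ⟨U, hUn, hU, hx1⟩ := exists_common χ hχ
  have hfin : Finite (GK K ⧸ U) := Subgroup.quotient_finite_of_isOpen U hU
  have h2 := (sym_size hΔ hσ 2 _ (artin_one (K := K)) 0 B₂ hB₂).2
  have hRR : ∀ v, RR (1 : Representation ℂ (GK K) (Fin 1 → ℂ)) 0 σ v = 1 :=
    Pool.Agent.Y139.SM.RR_one σ
  simp only [hRR, mul_one] at h2
  have h3 : Tendsto (fun ε : ℝ => (EP (nm K) ε fun v => tE W v * tE W v) / lam ε -
      (1 + size 2 0 B₂ ε)) (𝓝[>] 0) (𝓝 0) := by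
    have h4 := h2.add ((EP_one K).sub_const 1)
    rw [sub_self, add_zero] at h4
    refine h4.congr' ?_
    filter_upwards [self_mem_nhdsWithin] with ε hε
    have hε' : (0 : ℝ) < ε := hε
    have h5 : (EP (nm K) ε fun v => tE W v * tE W v) =
        (EP (nm K) ε fun v => (Chebyshev.U ℝ ((2 : ℕ) : ℤ)).eval (tE W v / 2)) +
          EP (nm K) ε fun _ => 1 := by
      rw [← EP_add normSys hε' (B := ub 2) (B' := 1) (fun v => ub_spec 2 (abs_tE W v))
        (fun v => by simp)]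
      congr 1
      funext v
      rw [U_two_val]
      ring
    rw [h5, add_div]
    ring
  exact bessel_two U hU Finset.univ χ hx1 τ σ hσ (T := tE W) (s := 2) (by norm_num)
    (fun v => abs_tE W v) (x := x) (fun k _ => hx k) (S := fun ε => 1 + size 2 0 B₂ ε) h3
    (fun k _ => hirr k) (fun k _ l _ => hne k l) hη

theorem size_one {W : WeierstrassCurve (𝓞 K)} (hΔ : W.Δ ≠ 0)
    {σ : HeightOneSpectrum (𝓞 K) → GK K} (hσ : ∀ v, IsFrob v (σ v)) {n : ℕ}
    (χ : Representation ℂ (GK K) (Fin n → ℂ)) (hχ : IsArtin χ) (τ : ℝ)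
    {B : HeightOneSpectrum (𝓞 K) → ℂ[X]} (hB : IsSym W 1 χ τ B) :
    (∀ᶠ ε : ℝ in 𝓝[>] 0, LFun B (edgePoint 1 τ + ε) ≠ 0) ∧
    Tendsto (fun ε : ℝ => (EP (nm K) ε fun v => tE W v * RR χ τ σ v) / lam ε - size 1 τ B ε)
      (𝓝[>] 0) (𝓝 0) := by
  have h := sym_size hΔ hσ 1 χ hχ τ B hB
  refine ⟨h.1, h.2.congr fun ε => ?_⟩
  congr 3
  funext v
  rw [U_one_val]

/-- **Bessel's inequality with the symmetric square** -/
theorem bessel_all {W : WeierstrassCurve (𝓞 K)} (hΔ : W.Δ ≠ 0)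
    {B₂ : HeightOneSpectrum (𝓞 K) → ℂ[X]}
    (hB₂ : IsSym W 2 (1 : Representation ℂ (GK K) (Fin 1 → ℂ)) 0 B₂)
    {κ : Type} [Fintype κ] {n : κ → ℕ} (χ : ∀ k, Representation ℂ (GK K) (Fin (n k) → ℂ))
    (hχ : ∀ k, IsArtin (χ k)) (hirr : ∀ k, (χ k).IsIrreducible) (τ : κ → ℝ)
    (hne : ∀ k l, k ≠ l → τ k = τ l → IsEmpty ((χ k).Equiv (χ l)))
    (B : κ → HeightOneSpectrum (𝓞 K) → ℂ[X]) (hB : ∀ k, IsSym W 1 (χ k) (τ k) (B k)) :
    (∀ η : ℝ, 0 < η → ∀ᶠ ε : ℝ in 𝓝[>] 0,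
      ∑ k, (size 1 (τ k) (B k) ε) ^ 2 ≤ 1 + size 2 0 B₂ ε + η) ∧
    ∀ (m₂ : ℤ) (m : κ → ℤ), HasOrder 2 0 B₂ m₂ → (∀ k, HasOrder 1 (τ k) (B k) (m k)) →
      ∑ k, m k ^ 2 ≤ 1 - m₂ := by
  classical
  choose σ hσ using exists_isFrob (F := K)
  have h1 : ∀ η : ℝ, 0 < η → ∀ᶠ ε : ℝ in 𝓝[>] 0,
      ∑ k, (size 1 (τ k) (B k) ε) ^ 2 ≤ 1 + size 2 0 B₂ ε + η := fun η hη =>
    bessel_sym hΔ hB₂ χ hχ hirr τ (fun k => size 1 (τ k) (B k)) σ hσ
      (fun k => (size_one hΔ hσ (χ k) (hχ k) (τ k) (hB k)).2) hne hη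
  refine ⟨h1, fun m₂ m hm₂ hm => ?_⟩
  have h2 : Tendsto (fun ε : ℝ => ∑ k, (size 1 (τ k) (B k) ε) ^ 2) (𝓝[>] 0)
      (𝓝 (∑ k, (-(m k : ℝ)) ^ 2)) :=
    tendsto_finsetSum _ fun k _ =>
      (size_lim (size_one hΔ hσ (χ k) (hχ k) (τ k) (hB k)).1 (hm k)).pow 2
  have h3 := size_lim (sym_size hΔ hσ 2 _ (artin_one (K := K)) 0 B₂ hB₂).1 hm₂
  have h4 : ∑ k, (-(m k : ℝ)) ^ 2 ≤ 1 + -(m₂ : ℝ) := by
    refine le_of_forall_pos_le_add fun η hη => ?_
    exact le_of_tendsto_of_tendsto h2 ((h3.const_add 1).add_const η) (h1 η hη)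
  have h5 : ((∑ k, m k ^ 2 : ℤ) : ℝ) ≤ ((1 - m₂ : ℤ) : ℝ) := by
    have e : ∑ k, (-(m k : ℝ)) ^ 2 = ((∑ k, m k ^ 2 : ℤ) : ℝ) := by
      push_cast
      exact Finset.sum_congr rfl fun k _ => by ring
    rw [← e]
    push_cast
    linarith
  exact Int.cast_le.1 h5

/-- the same for real characters and heights with `τ_k + τ_l ≠ 0` -/
theorem bessel_sym_real {W : WeierstrassCurve (𝓞 K)} (hΔ : W.Δ ≠ 0)
    {B₂ : HeightOneSpectrum (𝓞 K) → ℂ[X]}
    (hB₂ : IsSym W 2 (1 : Representation ℂ (GK K) (Fin 1 → ℂ)) 0 B₂)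
    {κ : Type} [Fintype κ] {n : κ → ℕ} (χ : ∀ k, Representation ℂ (GK K) (Fin (n k) → ℂ))
    (hχ : ∀ k, IsArtin (χ k)) (hirr : ∀ k, (χ k).IsIrreducible) (τ : κ → ℝ)
    (hne : ∀ k l, k ≠ l → τ k = τ l → IsEmpty ((χ k).Equiv (χ l)))
    (hτ : ∀ k l, τ k + τ l ≠ 0) (hreal : ∀ k g, ((χ k).character g).im = 0)
    (B : κ → HeightOneSpectrum (𝓞 K) → ℂ[X]) (hB : ∀ k, IsSym W 1 (χ k) (τ k) (B k)) :
    ∀ (m₂ : ℤ) (m : κ → ℤ), HasOrder 2 0 B₂ m₂ → (∀ k, HasOrder 1 (τ k) (B k) (m k)) →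
      2 * ∑ k, m k ^ 2 ≤ 1 - m₂ := by
  classical
  choose σ hσ using exists_isFrob (F := K)
  have h1 : ∀ η : ℝ, 0 < η → ∀ᶠ ε : ℝ in 𝓝[>] 0,
      2 * ∑ k, (size 1 (τ k) (B k) ε) ^ 2 ≤ 1 + size 2 0 B₂ ε + η := by
    intro η hη
    have h := bessel_sym (κ := κ ⊕ κ) hΔ hB₂ (n := Sum.elim n n)
      (fun k => match k with
        | Sum.inl k => χ k
        | Sum.inr k => χ k)
      (fun k => match k with
        | Sum.inl k => hχ k
        | Sum.inr k => hχ k)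
      (fun k => match k with
        | Sum.inl k => hirr k
        | Sum.inr k => hirr k)
      (Sum.elim τ fun k => -τ k)
      (Sum.elim (fun k => size 1 (τ k) (B k)) fun k => size 1 (τ k) (B k)) σ hσ
      (fun k => by
        rcases k with k | k
        · exact (size_one hΔ hσ (χ k) (hχ k) (τ k) (hB k)).2
        · have h2 := (size_one hΔ hσ (χ k) (hχ k) (τ k) (hB k)).2
          refine h2.congr fun ε => ?_
          simp only [Sum.elim_inr]
          congr 3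
          funext v
          rw [RR_neg (χ k) (hreal k)])
      (by
        intro k l hkl he
        rcases k with k | k <;> rcases l with l | l <;>
          simp only [Sum.elim_inl, Sum.elim_inr] at he
        · exact hne k l (fun h => hkl (by rw [h])) he
        · exact absurd (by linarith) (hτ k l)
        · exact absurd (by linarith) (hτ k l)
        · exact hne k l (fun h => hkl (by rw [h])) (by linarith)) hη
    refine h.mono fun ε hε => ?_
    rw [Fintype.sum_sum_type] at hε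
    simp only [Sum.elim_inl, Sum.elim_inr] at hε
    linarith
  intro m₂ m hm₂ hm
  have h2 : Tendsto (fun ε : ℝ => 2 * ∑ k, (size 1 (τ k) (B k) ε) ^ 2) (𝓝[>] 0)
      (𝓝 (2 * ∑ k, (-(m k : ℝ)) ^ 2)) :=
    (tendsto_finsetSum _ fun k _ =>
      (size_lim (size_one hΔ hσ (χ k) (hχ k) (τ k) (hB k)).1 (hm k)).pow 2).const_mul 2
  have h3 := size_lim (sym_size hΔ hσ 2 _ (artin_one (K := K)) 0 B₂ hB₂).1 hm₂
  have h4 : 2 * ∑ k, (-(m k : ℝ)) ^ 2 ≤ 1 + -(m₂ : ℝ) := by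
    refine le_of_forall_pos_le_add fun η hη => ?_
    exact le_of_tendsto_of_tendsto h2 ((h3.const_add 1).add_const η) (h1 η hη)
  have h5 : ((2 * ∑ k, m k ^ 2 : ℤ) : ℝ) ≤ ((1 - m₂ : ℤ) : ℝ) := by
    have e : ∑ k, (-(m k : ℝ)) ^ 2 = ((∑ k, m k ^ 2 : ℤ) : ℝ) := by
      push_cast
      exact Finset.sum_congr rfl fun k _ => by ring
    rw [e] at h4
    push_cast at h4 ⊢
    linarith
  exact Int.cast_le.1 h5

end

end Pool.Agent.H2N.SY
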